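import Mathlib

/-!
The toppling game: definitions.
-/

namespace Pool.Agent.P.MP_424b19_co

variable {V : Type} [Fintype V] [DecidableEq V] (G : SimpleGraph V) [DecidableRel G.Adj]

/-- The configuration obtained from `c` by toppling `v`: the vertex `v` loses `deg v` tokens and
each neighbour of `v` gains one token. -/
def topple (c : V → ℕ) (v : V) : V → ℕ := fun w =>
  if w = v then c v - G.degree v else if G.Adj v w then c w + 1 else c w

/-- One legal toppling: some ready vertex `v` (one holding at least `deg v` tokens) topples. -/
def Step (c c' : V → ℕ) : Prop :=
  ∃ v, G.degree v ≤ c v ∧ c' = topple G c v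

/-- The toppling phase started at `c` stops, at the configuration `c'`: finitely many legal
topplings lead from `c` to `c'`, and no vertex is ready in `c'`. -/
def Settles (c c' : V → ℕ) : Prop :=
  Relation.ReflTransGen (Step G) c c' ∧ ∀ v, c' v < G.degree v

/-- `MinEnds G n b c`: in the position with current configuration `c` and with Max to move
(`b = true`) or Min to move (`b = false`), Min can force the game to be over after at most `n`
further turns. A turn puts one token on a vertex `v`; if the toppling phase then stops, at `c'`,
the opponent moves from `c'`; if it never stops the game is over. -/
def MinEnds : ℕ → Bool → (V → ℕ) → Prop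
  | 0, _, _ => False
  | n + 1, true, c => ∀ v, ∀ c', Settles G (c + Pi.single v 1) c' → MinEnds n false c'
  | n + 1, false, c => ∃ v, ∀ c', Settles G (c + Pi.single v 1) c' → MinEnds n true c'

/-- The number of turns under optimal play from the empty configuration, Max starting if
`b = true` and Min starting if `b = false`: the least `n` such that Min can force the game to be
over after at most `n` turns. -/
noncomputable def value (b : Bool) : ℕ∞ :=
  ⨅ (n : ℕ) (_ : MinEnds G n b 0), (n : ℕ∞)

end Pool.Agent.P.MP_424b19_co
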