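import Pool.Agent.P.MP_424b19_co.ExDefs

/-!
The integer Laplacian and cuts.
-/

namespace Pool.Agent.P.MP_424b19_co

open Finset

variable {V : Type} [Fintype V] [DecidableEq V] (G : SimpleGraph V) [DecidableRel G.Adj]

/-- The Laplacian. -/
def lap (x : V → ℤ) : V → ℤ := fun v => ∑ u, if G.Adj v u then x v - x u else 0

/-- One token on `v`. -/
def dl (v : V) : V → ℤ := fun w => if w = v then 1 else 0

/-- Equivalence modulo the Laplacian. -/
def Eqv (D D' : V → ℤ) : Prop := ∃ x, lap G x = D - D'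

/-- The oriented edges leaving `A`. -/
def bd (A : Finset V) : Finset (V × V) := univ.filter fun p => p.1 ∈ A ∧ p.2 ∉ A ∧ G.Adj p.1 p.2

variable {G}

lemma mem_bd {A : Finset V} {p : V × V} : p ∈ bd G A ↔ p.1 ∈ A ∧ p.2 ∉ A ∧ G.Adj p.1 p.2 := by
  simp [bd]

omit [DecidableEq V] in
lemma lap_add (x y : V → ℤ) : lap G (x + y) = lap G x + lap G y := by
  funext v
  simp only [lap, Pi.add_apply, ← sum_add_distrib]
  exact sum_congr rfl fun u _ => by split_ifs <;> ring

omit [DecidableEq V] in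
lemma lap_sub (x y : V → ℤ) : lap G (x - y) = lap G x - lap G y := by
  funext v
  simp only [lap, Pi.sub_apply, ← sum_sub_distrib]
  exact sum_congr rfl fun u _ => by split_ifs <;> ring

omit [DecidableEq V] in
lemma lap_smul (k : ℤ) (x : V → ℤ) : lap G (k • x) = k • lap G x := by
  funext v
  simp only [lap, Pi.smul_apply, smul_eq_mul, mul_sum]
  exact sum_congr rfl fun u _ => by split_ifs <;> ring

omit [DecidableEq V] in
lemma lap_const (c : ℤ) : lap G (fun _ => c) = 0 := by
  funext v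
  simp [lap]

omit [DecidableEq V] in
lemma Eqv.of_eq {D D' : V → ℤ} (h : D = D') : Eqv G D D' :=
  ⟨fun _ => 0, by rw [lap_const, h, sub_self]⟩

omit [DecidableEq V] in
/-- Equivalence only depends on the difference. -/
lemma Eqv.congr {D D' E E' : V → ℤ} (h : Eqv G D D') (he : D - D' = E - E') : Eqv G E E' := by
  obtain ⟨x, hx⟩ := h
  exact ⟨x, hx.trans he⟩

omit [DecidableEq V] in
lemma Eqv.add {D D' E E' : V → ℤ} (h : Eqv G D D') (h' : Eqv G E E') :
    Eqv G (D + E) (D' + E') := by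
  obtain ⟨x, hx⟩ := h
  obtain ⟨y, hy⟩ := h'
  exact ⟨x + y, by rw [lap_add, hx, hy]; abel⟩

omit [DecidableEq V] in
lemma Eqv.sub {D D' E E' : V → ℤ} (h : Eqv G D D') (h' : Eqv G E E') :
    Eqv G (D - E) (D' - E') := by
  obtain ⟨x, hx⟩ := h
  obtain ⟨y, hy⟩ := h'
  exact ⟨x - y, by rw [lap_sub, hx, hy]; abel⟩

omit [DecidableEq V] in
lemma Eqv.smul {D D' : V → ℤ} (h : Eqv G D D') (k : ℤ) : Eqv G (k • D) (k • D') := by
  obtain ⟨x, hx⟩ := h
  exact ⟨k • x, by rw [lap_smul, hx, smul_sub]⟩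

omit [DecidableEq V] in
lemma Eqv.symm {D D' : V → ℤ} (h : Eqv G D D') : Eqv G D' D :=
  ((Eqv.of_eq (rfl : D = D)).sub h).congr (by abel)

omit [DecidableEq V] in
lemma Eqv.trans {D D' D'' : V → ℤ} (h : Eqv G D D') (h' : Eqv G D' D'') : Eqv G D D'' :=
  (h.add h').congr (by abel)

omit [Fintype V] in
lemma sum_dl (A : Finset V) (v : V) : ∑ w ∈ A, dl v w = if v ∈ A then 1 else 0 := by
  simp [dl]

lemma sum_lap_set (x : V → ℤ) (A : Finset V) :
    ∑ v ∈ A, lap G x v = ∑ p ∈ bd G A, (x p.1 - x p.2) := by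
  have h1 : ∑ v ∈ A, ∑ u ∈ A, (if G.Adj v u then x v - x u else 0) = 0 := by
    have h2 : ∑ v ∈ A, ∑ u ∈ A, (if G.Adj v u then x v - x u else 0) =
        -∑ v ∈ A, ∑ u ∈ A, (if G.Adj v u then x v - x u else 0) := by
      conv_rhs => rw [sum_comm, ← sum_neg_distrib]
      refine sum_congr rfl fun v _ => ?_
      rw [← sum_neg_distrib]
      refine sum_congr rfl fun u _ => ?_
      by_cases h : G.Adj v u
      · rw [if_pos h, if_pos h.symm]; ring
      · rw [if_neg h, if_neg fun h' => h h'.symm]; ring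
    omega
  have h2 : ∑ p ∈ bd G A, (x p.1 - x p.2) =
      ∑ v ∈ A, ∑ u ∈ Aᶜ, (if G.Adj v u then x v - x u else 0) := by
    rw [← sum_product', ← sum_filter]
    refine sum_congr ?_ fun _ _ => rfl
    ext p
    simp [mem_bd, and_assoc]
  simp only [lap, fun v => (sum_add_sum_compl A fun u => if G.Adj v u then x v - x u else 0).symm,
    sum_add_distrib, h1, h2, zero_add]

lemma Eqv.deg {D D' : V → ℤ} (h : Eqv G D D') : ∑ v, D v = ∑ v, D' v := by
  obtain ⟨x, hx⟩ := h
  have h1 := sum_lap_set (G := G) x univ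
  have h2 : bd G univ = ∅ := by simp [bd]
  rw [h2, sum_empty, hx] at h1
  simp only [Pi.sub_apply, sum_sub_distrib] at h1
  omega

/-- The Laplacian of an indicator. -/
lemma lap_ind (A : Finset V) :
    lap G (fun v => if v ∈ A then 1 else 0) = ∑ p ∈ bd G A, (dl p.1 - dl p.2) := by
  funext v
  have h1 : ∀ B : Finset (V × V), B = bd G A →
      (∑ p ∈ B, (dl p.1 - dl p.2)) v = ∑ p : V × V, if p ∈ bd G A then dl p.1 v - dl p.2 v else 0 := by
    rintro _ rfl
    rw [Finset.sum_apply, ← sum_filter, filter_mem_eq_inter, univ_inter]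
    rfl
  rw [h1 _ rfl]
  have h2 : ∀ p : V × V, (if p ∈ bd G A then dl p.1 v - dl p.2 v else 0) =
      (if v = p.1 then (if v ∈ A ∧ p.2 ∉ A ∧ G.Adj v p.2 then 1 else 0) else 0) -
        (if v = p.2 then (if p.1 ∈ A ∧ v ∉ A ∧ G.Adj p.1 v then 1 else 0) else 0) := by
    rintro ⟨a, b⟩
    simp only [mem_bd, dl]
    by_cases ha : v = a <;> by_cases hb : v = b
    · subst ha; subst hb; simp
    · subst ha; simp [hb]
    · subst hb; simp only [ha, if_true, if_false]; split_ifs <;> simp
    · simp [ha, hb]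
  simp only [h2, sum_sub_distrib, Fintype.sum_prod_type]
  rw [sum_comm]
  simp only [sum_ite_eq, mem_univ, if_true, ← sum_sub_distrib, lap]
  refine sum_congr rfl fun u _ => ?_
  by_cases h : G.Adj v u
  · by_cases hv : v ∈ A <;> by_cases hu : u ∈ A <;> simp [h, h.symm, hv, hu]
  · have h' : ¬ G.Adj u v := fun h' => h h'.symm
    simp [h, h']

lemma two_le_bd (hG : G.IsEdgeConnected 2) {A : Finset V} {a b : V} (ha : a ∈ A) (hb : b ∉ A) :
    2 ≤ (bd G A).card := by
  have key : ∀ e : Sym2 V, ∃ p ∈ bd G A, s(p.1, p.2) ≠ e := by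
    intro e
    obtain ⟨q⟩ := SimpleGraph.isEdgeConnected_two.1 hG e a b
    obtain ⟨d, -, h1, h2⟩ := q.exists_boundary_dart (A : Set V) ha hb
    have h3 := SimpleGraph.deleteEdges_adj.1 d.adj
    exact ⟨(d.fst, d.snd), mem_bd.2 ⟨h1, h2, h3.1⟩, h3.2⟩
  obtain ⟨p, hp, -⟩ := key s(a, a)
  obtain ⟨q, hq, hne⟩ := key s(p.1, p.2)
  exact one_lt_card.2 ⟨q, hq, p, hp, fun h => hne (by rw [h])⟩

lemma bd_submod (A B : Finset V) :
    (bd G (A ∩ B)).card + (bd G (A ∪ B)).card ≤ (bd G A).card + (bd G B).card := by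
  rw [← card_union_add_card_inter, ← card_union_add_card_inter (bd G A)]
  refine add_le_add (card_le_card fun p => ?_) (card_le_card fun p => ?_) <;>
    simp only [mem_union, mem_inter, mem_bd] <;> tauto

/-- Upper level sets. -/
lemma level (hG : G.IsEdgeConnected 2) {x : V → ℤ} {u w : V} (h : x u < x w) :
    2 ≤ (bd G (univ.filter fun v => x w ≤ x v)).card ∧
      (∀ p ∈ bd G (univ.filter fun v => x w ≤ x v), 1 ≤ x p.1 - x p.2) := by
  refine ⟨two_le_bd hG (a := w) (b := u) (by simp) (by simpa using h), fun p hp => ?_⟩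
  have := mem_bd.1 hp
  simp only [mem_filter, mem_univ, true_and, not_le] at this
  omega

lemma level_sum (hG : G.IsEdgeConnected 2) {x : V → ℤ} {u w : V} (h : x u < x w) :
    2 ≤ ∑ v ∈ univ.filter fun v => x w ≤ x v, lap G x v := by
  obtain ⟨h1, h2⟩ := level hG h
  have h3 := card_nsmul_le_sum _ _ _ h2
  rw [sum_lap_set]
  simp only [nsmul_eq_mul, mul_one] at h3
  omega

lemma const_of_lap (hG : G.IsEdgeConnected 2) {x : V → ℤ} {a b : V} (h : lap G x = dl a - dl b)
    (u w : V) : x u = x w := by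
  have key : ∀ u w, ¬ x u < x w := fun u w hl => by
    have h1 := level_sum hG hl
    simp only [h, Pi.sub_apply, sum_sub_distrib, sum_dl] at h1
    split_ifs at h1 <;> omega
  have := key u w
  have := key w u
  omega

lemma eq_of_eqv (hG : G.IsEdgeConnected 2) {a b : V} (h : Eqv G (dl a) (dl b)) : a = b := by
  obtain ⟨x, hx⟩ := h
  have h1 : x = fun _ => x a := funext fun v => const_of_lap hG hx v a
  rw [h1, lap_const] at hx
  have h2 := congrFun hx a
  by_contra hne
  simp [dl, hne] at h2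

/-- Two tokens move to two other places, one of them along an edge. -/
lemma cut_of_eqv (hG : G.IsEdgeConnected 2) {a b a' b' : V} (hab : G.Adj a b) (h1 : a ≠ b')
    (h2 : a' ≠ b') (h : Eqv G (dl a + dl a') (dl b + dl b')) :
    ∃ A : Finset V, a ∈ A ∧ a' ∈ A ∧ b ∉ A ∧ b' ∉ A ∧ (bd G A).card = 2 ∧
      bd G A = {(a, b), (a', b')} := by
  obtain ⟨x, hx⟩ := h
  have key : ∀ u w, x u < x w → (x w ≤ x a ∧ x w ≤ x a' ∧ x b < x w ∧ x b' < x w) ∧
      x a = x b + 1 ∧ (bd G (univ.filter fun v => x w ≤ x v)).card = 2 := by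
    intro u w hl
    have h3 := level_sum hG hl
    obtain ⟨h4, h5⟩ := level hG hl
    have h6 := sum_lap_set (G := G) x (univ.filter fun v => x w ≤ x v)
    simp only [hx, Pi.sub_apply, Pi.add_apply, sum_sub_distrib, sum_add_distrib, sum_dl, mem_filter,
      mem_univ, true_and] at h3 h6
    have h7 : x w ≤ x a ∧ x w ≤ x a' ∧ x b < x w ∧ x b' < x w := by
      split_ifs at h3 <;> omega
    rw [if_pos h7.1, if_pos h7.2.1, if_neg (by omega), if_neg (by omega), ← sum_sub_distrib] at h6
    have hm : (a, b) ∈ bd G (univ.filter fun v => x w ≤ x v) :=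
      mem_bd.2 ⟨by simpa using h7.1, by simpa using h7.2.2.1, hab⟩
    have h8 := card_nsmul_le_sum _ _ _ fun p hp => h5 p (mem_of_mem_erase (a := (a, b)) hp)
    rw [← add_sum_erase _ _ hm] at h6
    have h9 := card_erase_add_one hm
    have h10 := h5 _ hm
    simp only [nsmul_eq_mul, mul_one] at h8 h6 h10
    exact ⟨h7, by omega, by omega⟩
  have hne : ∃ u w, x u < x w := by
    by_contra hc
    push Not at hc
    have h3 : x = fun _ => x a := funext fun v => le_antisymm (hc a v) (hc v a)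
    rw [h3, lap_const] at hx
    have h4 := congrFun hx a
    simp only [dl, Pi.zero_apply, Pi.sub_apply, Pi.add_apply, if_true, if_neg hab.ne,
      if_neg h1] at h4
    split_ifs at h4 <;> omega
  obtain ⟨u, w, hl⟩ := hne
  have hxa := (key u w hl).2.1
  obtain ⟨⟨-, k1, -, k2⟩, -, k3⟩ := key b a (by omega)
  have hm : (a, b) ∈ bd G (univ.filter fun v => x a ≤ x v) :=
    mem_bd.2 ⟨by simp, by simp; omega, hab⟩
  refine ⟨univ.filter fun v => x a ≤ x v, by simp, by simpa using k1, by simp; omega,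
    by simpa using k2, k3, ?_⟩
  have hx2 : x = (fun _ => x b) + fun v => if v ∈ univ.filter (fun v => x a ≤ x v) then 1 else 0 := by
    funext v
    have k4 : ¬ x a < x v := fun hh => by have := (key a v hh).1.1; omega
    have k5 : ¬ x v < x b := fun hh => by have := (key v b hh).1.2.2.1; omega
    simp only [Pi.add_apply, mem_filter, mem_univ, true_and]
    split_ifs <;> omega
  have hx3 := lap_ind (G := G) (univ.filter fun v => x a ≤ x v)
  obtain ⟨q, hq⟩ := card_eq_one.1
    (show ((bd G (univ.filter fun v => x a ≤ x v)).erase (a, b)).card = 1 by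
      have := card_erase_add_one hm
      omega)
  have hq1 : q ∈ bd G (univ.filter fun v => x a ≤ x v) :=
    mem_of_mem_erase (hq ▸ mem_singleton_self q)
  rw [← add_sum_erase _ _ hm, hq, sum_singleton] at hx3
  rw [hx2, lap_add, lap_const, zero_add, hx3] at hx
  have hq2 : dl q.1 - dl q.2 = dl a' - dl b' := by linear_combination hx
  have hq3 : q = (a', b') := by
    have k6 := congrFun hq2 a'
    have k7 := congrFun hq2 b'
    simp only [dl, Pi.sub_apply, if_true, if_neg h2, if_neg h2.symm] at k6 k7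
    refine Prod.ext ?_ ?_
    · by_contra hc
      rw [if_neg (Ne.symm hc)] at k6
      split_ifs at k6 <;> omega
    · by_contra hc
      rw [if_neg (Ne.symm hc)] at k7
      split_ifs at k7 <;> omega
  rw [← insert_erase hm, hq, hq3]

end Pool.Agent.P.MP_424b19_co
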