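import Pool.Agent.P.MP_424b19_co.Defs

/-!
Mirror maps of a graph.
-/

namespace Pool.Agent.P.MP_424b19_co

variable {V : Type}

/-- `ι` is a mirror of `G`: an automorphism of order at most two such that every edge `a b` with
`b ≠ ι a` forms, together with its image, an edge cut: for some vertex set `A` that contains `a`
and `ι a` but neither `b` nor `ι b`, the only edges leaving `A` are `a b` and `(ι a) (ι b)`. -/
def Mirror (G : SimpleGraph V) (ι : V → V) : Prop :=
  (∀ v, ι (ι v) = v) ∧ (∀ a b, G.Adj a b → G.Adj (ι a) (ι b)) ∧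
    ∀ a b, G.Adj a b → b ≠ ι a → ∃ A : Set V, a ∈ A ∧ ι a ∈ A ∧ b ∉ A ∧ ι b ∉ A ∧
      ∀ x ∈ A, ∀ y ∉ A, G.Adj x y → (x = a ∧ y = b) ∨ (x = ι a ∧ y = ι b)

end Pool.Agent.P.MP_424b19_co
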