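import Pool.Agent.P.MP_424b19_co.Defs

namespace Pool.Agent.P.MP_424b19_co

open Finset Matrix

variable {V : Type} [Fintype V] [DecidableEq V] (G : SimpleGraph V) [DecidableRel G.Adj]

/-- A toppling changes the configuration by minus a column of the Laplacian. -/
lemma step_lattice {c c' : V → ℕ} (h : Step G c c') :
    ∃ x : V → ℤ, ∀ w, (c w : ℚ) - c' w = (G.lapMatrix ℚ *ᵥ fun u => (x u : ℚ)) w := by
  obtain ⟨v, hv, rfl⟩ := h
  refine ⟨Pi.single v 1, fun w => ?_⟩
  rw [SimpleGraph.lapMatrix_mulVec_apply]
  have hs : ∑ u ∈ G.neighborFinset w, ((Pi.single v (1 : ℤ) : V → ℤ) u : ℚ)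
      = if G.Adj w v then 1 else 0 := by
    have : ∀ u, ((Pi.single v (1 : ℤ) : V → ℤ) u : ℚ) = if u = v then 1 else 0 := by
      intro u; by_cases hu : u = v <;> simp [hu]
    simp_rw [this]
    rw [Finset.sum_ite_eq']
    simp
  rw [hs]
  unfold topple
  by_cases hw : w = v
  · subst hw
    simp [Nat.cast_sub hv]
  · by_cases ha : G.Adj v w
    · simp [hw, ha, ha.symm]
    · have : ¬ G.Adj w v := fun h => ha h.symm
      simp [hw, ha, this]

lemma reach_lattice {c c' : V → ℕ} (h : Relation.ReflTransGen (Step G) c c') :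
    ∃ x : V → ℤ, ∀ w, (c w : ℚ) - c' w = (G.lapMatrix ℚ *ᵥ fun u => (x u : ℚ)) w := by
  induction h with
  | refl => exact ⟨0, fun w => by simp [SimpleGraph.lapMatrix_mulVec_apply]⟩
  | tail _ hs ih =>
    obtain ⟨x, hx⟩ := ih
    obtain ⟨y, hy⟩ := step_lattice G hs
    refine ⟨x + y, fun w => ?_⟩
    have : (fun u => ((x + y) u : ℚ)) = (fun u => (x u : ℚ)) + fun u => (y u : ℚ) := by
      ext u; simp
    rw [this, mulVec_add, Pi.add_apply, ← hx, ← hy]; ring

lemma sum_lap (x : V → ℚ) : ∑ w, (G.lapMatrix ℚ *ᵥ x) w = 0 := by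
  have h1 : ∑ w, (G.lapMatrix ℚ *ᵥ x) w = (fun _ => (1 : ℚ)) ⬝ᵥ (G.lapMatrix ℚ *ᵥ x) := by
    simp [dotProduct]
  rw [h1, dotProduct_mulVec, ← mulVec_transpose, (G.isSymm_lapMatrix ℚ).eq,
    SimpleGraph.lapMatrix_mulVec_const_eq_zero]
  simp

lemma reach_total {c c' : V → ℕ} (h : Relation.ReflTransGen (Step G) c c') :
    ∑ w, c' w = ∑ w, c w := by
  obtain ⟨x, hx⟩ := reach_lattice G h
  have := sum_lap G (fun u => (x u : ℚ))
  simp_rw [← hx] at this
  rw [Finset.sum_sub_distrib, sub_eq_zero] at this
  exact_mod_cast this.symm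

/-- Energy argument: a unit current along an edge lying on a cycle has no integer potential. -/
lemma no_potential {a b : V} (hab : G.Adj a b) (hr : (G.deleteEdges {s(a, b)}).Reachable a b)
    (x : V → ℤ) (hx : ∀ w, (G.lapMatrix ℚ *ᵥ fun u => (x u : ℚ)) w
      = (if w = a then 1 else 0) - (if w = b then 1 else 0)) : False := by
  have hne : a ≠ b := hab.ne
  have hE := G.lapMatrix_toLinearMap₂' ℚ (fun u => (x u : ℚ))
  rw [toLinearMap₂'_apply'] at hE
  have hL : (fun u => (x u : ℚ)) ⬝ᵥ (G.lapMatrix ℚ *ᵥ fun u => (x u : ℚ)) = x a - x b := by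
    simp only [dotProduct, hx, mul_sub, Finset.sum_sub_distrib, mul_ite, mul_one, mul_zero,
      Finset.sum_ite_eq', Finset.mem_univ, if_true]
  rw [hL, ← Finset.sum_product', Finset.univ_product_univ] at hE
  set F : V × V → ℚ := fun p => if G.Adj p.1 p.2 then ((x p.1 : ℚ) - x p.2) ^ 2 else 0 with hF
  have hF0 : ∀ p, 0 ≤ F p := fun p => by simp only [hF]; split_ifs <;> positivity
  have hk : ((x a : ℚ) - x b) ≤ ((x a : ℚ) - x b) ^ 2 := by
    have : (x a - x b) ≤ (x a - x b) ^ 2 := Int.le_self_sq _
    exact_mod_cast this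
  have hab' : ((a, b) : V × V) ≠ (b, a) := fun h => hne (Prod.ext_iff.1 h).1
  have hsplit : ∑ p, F p = ∑ p ∈ univ \ {(a, b), (b, a)}, F p + (F (a, b) + F (b, a)) := by
    rw [← Finset.sum_pair hab', Finset.sum_sdiff (Finset.subset_univ _)]
  have h1 : F (a, b) = ((x a : ℚ) - x b) ^ 2 := by simp [hF, hab]
  have h2 : F (b, a) = ((x a : ℚ) - x b) ^ 2 := by simp [hF, hab.symm]; ring
  have hrest0 : 0 ≤ ∑ p ∈ univ \ {(a, b), (b, a)}, F p := Finset.sum_nonneg fun p _ => hF0 p
  have hrest : ∑ p ∈ univ \ {(a, b), (b, a)}, F p = 0 := by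
    have : (x a : ℚ) - x b = (∑ p, F p) / 2 := hE
    linarith
  rw [Finset.sum_eq_zero_iff_of_nonneg fun p _ => hF0 p] at hrest
  have hedge : ∀ u w, (G.deleteEdges {s(a, b)}).Adj u w → x u = x w := by
    intro u w huw
    rw [SimpleGraph.deleteEdges_adj] at huw
    obtain ⟨h, hn⟩ := huw
    have hmem : (u, w) ∈ (univ \ {(a, b), (b, a)} : Finset (V × V)) := by
      simp only [Finset.mem_sdiff, Finset.mem_univ, Finset.mem_insert, Finset.mem_singleton,
        true_and, Prod.mk.injEq]
      rintro (⟨rfl, rfl⟩ | ⟨rfl, rfl⟩)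
      · exact hn (by simp)
      · exact hn (by simp)
    have := hrest _ hmem
    simp only [hF, h, if_true] at this
    have h3 : (x u : ℚ) - x w = 0 := by simpa using this
    exact_mod_cast sub_eq_zero.1 h3
  have hxab : x a = x b := by
    obtain ⟨p⟩ := hr
    have : ∀ {u w : V} (q : (G.deleteEdges {s(a, b)}).Walk u w), x u = x w := by
      intro u w q
      induction q with
      | nil => rfl
      | cons h _ ih => exact (hedge _ _ h).trans ih
    exact this p
  have hall : ∀ u ∈ G.neighborFinset a, (x u : ℚ) = x a := by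
    intro u hu
    rw [SimpleGraph.mem_neighborFinset] at hu
    by_cases hub : u = b
    · rw [hub, hxab]
    · have : (G.deleteEdges {s(a, b)}).Adj a u := by
        rw [SimpleGraph.deleteEdges_adj]
        refine ⟨hu, ?_⟩
        simp [hub, hne]
      rw [hedge _ _ this]
  have := hx a
  rw [SimpleGraph.lapMatrix_mulVec_apply, Finset.sum_congr rfl hall] at this
  simp [hne] at this

/-- The largest number of tokens of a stable configuration. -/
def cap : ℕ := ∑ v, (G.degree v - 1)

omit [DecidableEq V] in
lemma stable_le {c : V → ℕ} (hc : ∀ v, c v < G.degree v) : ∑ v, c v ≤ cap G :=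
  Finset.sum_le_sum fun v _ => by have := hc v; omega

omit [DecidableEq V] in
lemma stable_eq {c : V → ℕ} (hc : ∀ v, c v < G.degree v) (h : ∑ v, c v = cap G) (v : V) :
    c v = G.degree v - 1 :=
  (Finset.sum_eq_sum_iff_of_le fun v _ => by have := hc v; omega).1 h v (Finset.mem_univ v)

lemma sum_add_single (c : V → ℕ) (v : V) :
    ∑ w, (c + Pi.single v 1 : V → ℕ) w = ∑ w, c w + 1 := by
  simp [Finset.sum_add_distrib]

lemma settles_total {c c' : V → ℕ} {v : V} (h : Settles G (c + Pi.single v 1) c') :
    ∑ w, c' w = ∑ w, c w + 1 := by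
  rw [reach_total G h.1, sum_add_single]

lemma exists_quiet {c : V → ℕ} (hc : ∀ v, c v < G.degree v) (h : ∑ v, c v < cap G) :
    ∃ v, Settles G (c + Pi.single v 1) (c + Pi.single v 1) := by
  obtain ⟨v, -, hv⟩ := Finset.exists_lt_of_sum_lt h
  refine ⟨v, Relation.ReflTransGen.refl, fun w => ?_⟩
  by_cases hw : w = v
  · subst hw; simp; omega
  · simp [hw, hc w]

/-- The game does not end on a move of Max before the last possible turn. -/
lemma parity : ∀ (n : ℕ) (b : Bool) (c : V → ℕ), (∀ v, c v < G.degree v) →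
    ∑ v, c v + (n + 1) ≤ cap G → (b = true ↔ Even n) → MinEnds G (n + 1) b c →
    MinEnds G n b c := by
  intro n
  induction n with
  | zero =>
    intro b c hc hs hb h
    have hb' : b = true := hb.2 (by simp)
    subst hb'
    obtain ⟨v, hv⟩ := exists_quiet G hc (by omega)
    exact h v _ hv
  | succ n ih =>
    intro b c hc hs hb h
    cases b with
    | true =>
      intro v c' hs'
      refine ih false c' hs'.2 (by rw [settles_total G hs']; omega) ?_ (h v c' hs')
      have : Even (n + 1) := hb.1 rfl
      rw [Nat.even_add_one] at this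
      simp [this]
    | false =>
      obtain ⟨v, hv⟩ := h
      refine ⟨v, fun c' hs' => ?_⟩
      refine ih true c' hs'.2 (by rw [settles_total G hs']; omega) ?_ (hv c' hs')
      have : ¬ Even (n + 1) := fun h => by simpa using hb.2 h
      rw [Nat.even_add_one] at this
      simpa using this

/-- If Min makes the move number `cap G`, she can end the game by then. -/
lemma min_last {a b : V} (hab : G.Adj a b) (hr : (G.deleteEdges {s(a, b)}).Reachable a b) :
    ∀ (n : ℕ) (p : Bool) (c : V → ℕ), ∑ v, c v + (n + 1) = cap G →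
      (p = false ↔ Even n) → MinEnds G (n + 1) p c := by
  intro n
  induction n with
  | zero =>
    intro p c hs hp
    have hp' : p = false := hp.2 (by simp)
    subst hp'
    by_contra hcon
    have hall : ∀ v, ∃ c', Settles G (c + Pi.single v 1) c' := by
      intro v
      by_contra hv
      exact hcon ⟨v, fun c' h => hv ⟨c', h⟩⟩
    obtain ⟨ca, hca⟩ := hall a
    obtain ⟨cb, hcb⟩ := hall b
    have ha := stable_eq G hca.2 (by rw [settles_total G hca]; omega)
    have hb := stable_eq G hcb.2 (by rw [settles_total G hcb]; omega)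
    obtain ⟨x, hx⟩ := reach_lattice G hca.1
    obtain ⟨y, hy⟩ := reach_lattice G hcb.1
    refine no_potential G hab hr (x - y) fun w => ?_
    have : (fun u => ((x - y) u : ℚ)) = (fun u => (x u : ℚ)) - fun u => (y u : ℚ) := by
      ext u; simp
    rw [this, mulVec_sub, Pi.sub_apply, ← hx, ← hy, ha, hb]
    by_cases h1 : w = a <;> by_cases h2 : w = b <;> simp [h1, h2, Pi.single_apply]
  | succ n ih =>
    intro p c hs hp
    cases p with
    | true =>
      intro v c' hs'
      refine ih false c' (by rw [settles_total G hs']; omega) ?_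
      have : ¬ Even (n + 1) := fun h => by simpa using hp.2 h
      rw [Nat.even_add_one] at this
      simpa using this
    | false =>
      refine ⟨a, fun c' hs' => ?_⟩
      refine ih true c' (by rw [settles_total G hs']; omega) ?_
      have : Even (n + 1) := hp.1 rfl
      rw [Nat.even_add_one] at this
      simp [this]

/-- The game is over after at most `cap G + 1` turns in all. -/
lemma ends [Nonempty V] : ∀ (n : ℕ) (p : Bool) (c : V → ℕ), cap G + 1 ≤ ∑ v, c v + (n + 1) →
    MinEnds G (n + 1) p c := by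
  intro n
  induction n with
  | zero =>
    intro p c hs
    have key : ∀ v c', Settles G (c + Pi.single v 1) c' → False := by
      intro v c' h
      have := stable_le G h.2
      rw [settles_total G h] at this
      omega
    cases p with
    | true => exact key
    | false => exact ⟨Classical.arbitrary V, key _⟩
  | succ n ih =>
    intro p c hs
    cases p with
    | true => exact fun v c' hs' => ih false c' (by rw [settles_total G hs']; omega)
    | false =>
      exact ⟨Classical.arbitrary V, fun c' hs' => ih true c' (by rw [settles_total G hs']; omega)⟩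

lemma value_eq [Nonempty V] (p : Bool) :
    ∃ n : ℕ, value G p = n ∧ MinEnds G n p 0 ∧ ∀ m, MinEnds G m p 0 → n ≤ m := by
  classical
  have hex : ∃ n, MinEnds G n p 0 := ⟨cap G + 1, ends G _ _ _ (by simp)⟩
  refine ⟨Nat.find hex, le_antisymm ?_ ?_, Nat.find_spec hex, fun m hm => Nat.find_min' hex hm⟩
  · unfold value
    exact iInf₂_le (f := fun (n : ℕ) (_ : MinEnds G n p 0) => (n : ℕ∞)) _ (Nat.find_spec hex)
  · unfold value
    exact le_iInf₂ fun m hm => by exact_mod_cast Nat.find_min' hex hm

theorem value_ne (hc : G.Connected) (ht : ¬ G.IsTree) : value G true ≠ value G false := by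
  have hac : ¬ G.IsAcyclic := fun h => ht ⟨hc, h⟩
  rw [SimpleGraph.isAcyclic_iff_forall_adj_isBridge] at hac
  push Not at hac
  obtain ⟨a, b, hab, hbr⟩ := hac
  rw [SimpleGraph.isBridge_iff, not_not] at hbr
  have : Nonempty V := ⟨a⟩
  have : Nontrivial V := ⟨a, b, hab.ne⟩
  have hdeg : ∀ v, (0 : V → ℕ) v < G.degree v := fun v => by
    obtain ⟨u, hu⟩ := hc.preconnected.exists_adj_of_nontrivial v
    exact hu.degree_pos_left
  have hcap : 1 ≤ cap G := by
    obtain ⟨p⟩ := hbr
    have hadj := p.adj_snd (p.not_nil_of_ne hab.ne)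
    rw [SimpleGraph.deleteEdges_adj] at hadj
    have hne : p.snd ≠ b := fun h => hadj.2 (by simp [h])
    have h2 : 2 ≤ G.degree a := by
      have : ({p.snd, b} : Finset V) ⊆ G.neighborFinset a := by
        intro u hu
        simp only [Finset.mem_insert, Finset.mem_singleton] at hu
        rcases hu with rfl | rfl
        · simpa using hadj.1
        · simpa using hab
      have := Finset.card_le_card this
      rwa [Finset.card_pair hne] at this
    calc 1 ≤ G.degree a - 1 := by omega
      _ ≤ cap G := Finset.single_le_sum (f := fun v => G.degree v - 1)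
          (fun _ _ => Nat.zero_le _) (Finset.mem_univ a)
  obtain ⟨n, hn, hn1, hn2⟩ := value_eq G true
  obtain ⟨m, hm, hm1, hm2⟩ := value_eq G false
  rw [hn, hm]
  intro h
  have hnm : n = m := by exact_mod_cast h
  subst hnm
  obtain ⟨k, hk⟩ : ∃ k, cap G = k + 1 := ⟨cap G - 1, by omega⟩
  have hle : n ≤ cap G := by
    rw [hk]
    by_cases he : Even k
    · exact hm2 _ (min_last G hab hbr k false 0 (by simp [hk]) (by simp [he]))
    · exact hn2 _ (min_last G hab hbr k true 0 (by simp [hk]) (by simp [he]))
  cases n with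
  | zero => exact hn1
  | succ n =>
    by_cases he : Even n
    · have := hn2 _ (parity G n true 0 hdeg (by simpa using hle) (by simp [he]) hn1)
      omega
    · have := hm2 _ (parity G n false 0 hdeg (by simpa using hle) (by simp [he]) hm1)
      omega

end Pool.Agent.P.MP_424b19_co
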