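import Pool.Agent.P.MP_424b19_co.ExCut
import Pool.Agent.P.MP_424b19_co.Proof

/-!
The game on equivalence classes.
-/

namespace Pool.Agent.P.MP_424b19_co

open Finset

variable {V : Type} [Fintype V] [DecidableEq V] (G : SimpleGraph V) [DecidableRel G.Adj]

/-- The free room of a configuration. -/
def room (c : V → ℕ) : V → ℤ := fun v => (G.degree v : ℤ) - 1 - c v

/-- Max survives `k` rounds and uses up all the room. -/
def Surv : ℕ → (V → ℤ) → Prop
  | 0, D => Eqv G D 0
  | k + 1, D => ∀ v, ∃ w, Surv k (D - dl v - dl w)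

variable {G}

lemma lap_dl (v w : V) :
    lap G (dl v) w = if w = v then (G.degree v : ℤ) else if G.Adj v w then -1 else 0 := by
  by_cases h : w = v
  · subst h
    have h1 : ∀ u, (if G.Adj w u then dl w w - dl w u else 0) = if G.Adj w u then 1 else 0 :=
      fun u => by
        split_ifs with h2
        · simp [dl, h2.ne']
        · rfl
    simp only [lap, h1, if_true, sum_boole, ← SimpleGraph.card_neighborFinset_eq_degree,
      SimpleGraph.neighborFinset_eq_filter]
  · have h1 : ∀ u, (if G.Adj w u then dl v w - dl v u else 0) =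
        if u = v then (if G.Adj v w then -1 else 0) else 0 := fun u => by
      by_cases h2 : u = v
      · subst h2
        simp [dl, h, G.adj_comm]
      · simp [dl, h, h2]
    simp only [lap, h1, sum_ite_eq', mem_univ, if_true, if_neg h]

lemma room_topple {c : V → ℕ} {v : V} (hv : G.degree v ≤ c v) :
    room G (topple G c v) = room G c + lap G (dl v) := by
  funext w
  simp only [room, topple, Pi.add_apply, lap_dl]
  split_ifs with h1 h2
  · subst h1
    push_cast [hv]
    ring
  · push_cast
    ring
  · ring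

lemma room_add (c : V → ℕ) (v : V) : room G (c + Pi.single v 1) = room G c - dl v := by
  funext w
  by_cases h : w = v
  · subst h
    simp [room, dl]
    ring
  · simp [room, dl, h]

lemma Settles.eqv {c c' : V → ℕ} (h : Settles G c c') : Eqv G (room G c') (room G c) := by
  obtain ⟨h, -⟩ := h
  induction h with
  | refl => exact Eqv.of_eq rfl
  | tail _ hs ih =>
    obtain ⟨v, hv, rfl⟩ := hs
    exact Eqv.trans ⟨dl v, by rw [room_topple hv]; abel⟩ ih

/-- The least action principle. -/
lemma settles_of_le : ∀ (n : ℕ) (c : V → ℕ) (y : V → ℤ), (∀ v, 0 ≤ y v) → ∑ v, y v ≤ n →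
    (∀ v, 0 ≤ room G c v + lap G y v) → ∃ c', Settles G c c' := by
  intro n
  induction n using Nat.strong_induction_on with
  | _ n ih =>
    intro c y hy hn h
    by_cases hc : ∀ v, c v < G.degree v
    · exact ⟨c, Relation.ReflTransGen.refl, hc⟩
    push Not at hc
    obtain ⟨v, hv⟩ := hc
    have h1 : 0 < y v := by
      by_contra h2
      have h3 : lap G y v ≤ 0 := sum_nonpos fun u _ => by
        have := hy u
        split_ifs <;> omega
      have h4 := h v
      simp only [room] at h4
      omega
    have h2 : y v ≤ ∑ v, y v := single_le_sum (fun u _ => hy u) (mem_univ v)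
    obtain ⟨c', h3, h4⟩ := ih (n - 1) (by omega) (topple G c v) (y - dl v)
      (fun w => by
        have := hy w
        simp only [Pi.sub_apply, dl]
        split_ifs with h5
        · subst h5
          omega
        · omega)
      (by
        simp only [Pi.sub_apply, sum_sub_distrib, sum_dl, mem_univ, if_true]
        omega)
      (fun w => by
        have := h w
        rw [room_topple hv, lap_sub]
        simp only [Pi.add_apply, Pi.sub_apply]
        omega)
    exact ⟨c', Relation.ReflTransGen.head ⟨v, hv, rfl⟩ h3, h4⟩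

lemma settles_of_eqv {c : V → ℕ} {E : V → ℤ} (hE : ∀ v, 0 ≤ E v) (h : Eqv G E (room G c)) :
    ∃ c', Settles G c c' := by
  obtain ⟨x, hx⟩ := h
  refine settles_of_le (∑ v, (x + fun _ => ∑ u, |x u| : V → ℤ) v).toNat c (x + fun _ => ∑ u, |x u|)
    (fun v => ?_) (Int.self_le_toNat _) fun v => ?_
  · have h1 : |x v| ≤ ∑ u, |x u| :=
      single_le_sum (f := fun u => |x u|) (fun u _ => abs_nonneg _) (mem_univ v)
    have := neg_abs_le (x v)
    simp only [Pi.add_apply]
    omega
  · have := hE v
    rw [lap_add, lap_const, hx]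
    simp only [Pi.add_apply, Pi.sub_apply, Pi.zero_apply]
    omega

lemma Surv.congr : ∀ {k : ℕ} {D D' : V → ℤ}, Surv G k D → Eqv G D' D → Surv G k D' := by
  intro k
  induction k with
  | zero => exact fun h h' => h'.trans h
  | succ k ih =>
    intro D D' h h' v
    obtain ⟨w, hw⟩ := h v
    exact ⟨w, ih hw (h'.congr (by abel))⟩

omit [Fintype V] in
lemma dl_nonneg (v w : V) : 0 ≤ dl v w := by
  unfold dl
  split_ifs <;> omega

lemma Surv.eff [Nonempty V] : ∀ {k : ℕ} {D : V → ℤ}, Surv G k D →
    ∃ E : V → ℤ, (∀ v, 0 ≤ E v) ∧ Eqv G E D := by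
  intro k
  induction k with
  | zero => exact fun h => ⟨0, fun _ => le_rfl, h.symm⟩
  | succ k ih =>
    intro D h
    obtain ⟨w, hw⟩ := h (Classical.arbitrary V)
    obtain ⟨E, h1, h2⟩ := ih hw
    exact ⟨E + dl (Classical.arbitrary V) + dl w, fun v =>
      add_nonneg (add_nonneg (h1 v) (dl_nonneg _ _)) (dl_nonneg _ _), h2.congr (by abel)⟩

lemma Surv.deg [Nonempty V] : ∀ {k : ℕ} {D : V → ℤ}, Surv G k D → ∑ v, D v = 2 * k := by
  intro k
  induction k with
  | zero => exact fun h => by simpa using Eqv.deg h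
  | succ k ih =>
    intro D h
    obtain ⟨w, hw⟩ := h (Classical.arbitrary V)
    have := ih hw
    simp only [Pi.sub_apply, sum_sub_distrib, sum_dl, mem_univ, if_true] at this
    push_cast
    omega

lemma surv_iff [Nonempty V] (k : ℕ) :
    (∀ c : V → ℕ, (∀ v, c v < G.degree v) → ∑ v, c v + 2 * k = cap G →
      (¬ MinEnds G (2 * k) false c ↔ Surv G k (room G c))) ∧
        ∀ c₀ : V → ℕ, ∑ v, c₀ v + (2 * k + 1) = cap G →
          (¬ MinEnds G (2 * k + 1) true c₀ ↔ ∃ w, Surv G k (room G c₀ - dl w)) := by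
  have step : ∀ k, (∀ c : V → ℕ, (∀ v, c v < G.degree v) → ∑ v, c v + 2 * k = cap G →
      (¬ MinEnds G (2 * k) false c ↔ Surv G k (room G c))) →
      ∀ c₀ : V → ℕ, ∑ v, c₀ v + (2 * k + 1) = cap G →
        (¬ MinEnds G (2 * k + 1) true c₀ ↔ ∃ w, Surv G k (room G c₀ - dl w)) := by
    intro k ih c₀ h0
    simp only [MinEnds, not_forall]
    refine exists_congr fun w => ⟨?_, fun h => ?_⟩
    · rintro ⟨c, h1, h2⟩
      exact ((ih c h1.2 (by rw [settles_total G h1]; omega)).1 h2).congr
        (room_add (G := G) c₀ w ▸ h1.eqv.symm)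
    · obtain ⟨E, h1, h2⟩ := h.eff
      rw [← room_add] at h2 h
      obtain ⟨c, hc⟩ := settles_of_eqv h1 h2
      exact ⟨c, hc, (ih c hc.2 (by rw [settles_total G hc]; omega)).2 (h.congr hc.eqv)⟩
  have main : ∀ (k : ℕ) (c : V → ℕ), (∀ v, c v < G.degree v) → ∑ v, c v + 2 * k = cap G →
      (¬ MinEnds G (2 * k) false c ↔ Surv G k (room G c)) := by
    intro k
    induction k with
    | zero =>
      intro c hc h
      refine ⟨fun _ => Eqv.of_eq (funext fun v => ?_), fun _ => id⟩
      have h1 := stable_eq G hc h v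
      have h2 := hc v
      simp only [room, Pi.zero_apply]
      omega
    | succ k ih =>
      intro c hc h
      rw [show 2 * (k + 1) = 2 * k + 1 + 1 by ring]
      simp only [Surv]
      rw [MinEnds]
      simp only [not_exists, not_forall]
      refine forall_congr' fun v => ⟨?_, ?_⟩
      · rintro ⟨c', h1, h2⟩
        obtain ⟨w, hw⟩ := (step k ih c' (by rw [settles_total G h1]; omega)).1 h2
        exact ⟨w, hw.congr ((room_add (G := G) c v ▸ h1.eqv.symm).congr (by abel))⟩
      · rintro ⟨w, hw⟩
        obtain ⟨E, h1, h2⟩ := hw.eff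
        obtain ⟨c', hc'⟩ := settles_of_eqv (G := G) (c := c + Pi.single v 1) (E := E + dl w)
          (fun u => add_nonneg (h1 u) (dl_nonneg _ _)) (by rw [room_add]; exact h2.congr (by abel))
        refine ⟨c', hc', (step k ih c' (by rw [settles_total G hc']; omega)).2 ⟨w, hw.congr ?_⟩⟩
        exact (room_add (G := G) c v ▸ hc'.eqv).congr (by abel)
  exact ⟨main k, step k (main k)⟩

lemma MinEnds.succ : ∀ {n : ℕ} {b : Bool} {c : V → ℕ}, MinEnds G n b c →
    MinEnds G (n + 1) b c := by
  intro n
  induction n with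
  | zero => exact fun h => h.elim
  | succ n ih =>
    intro b c h
    cases b with
    | true => exact fun v c' hs => ih (h v c' hs)
    | false =>
      obtain ⟨v, hv⟩ := h
      exact ⟨v, fun c' hs => ih (hv c' hs)⟩

lemma value_eq_iff [Nonempty V] (b : Bool) :
    value G b = ((cap G + 1 : ℕ) : ℕ∞) ↔ ¬ MinEnds G (cap G) b 0 := by
  obtain ⟨n, h1, h2, h3⟩ := value_eq G b
  have h4 := h3 _ (ends G (cap G) b 0 (by simp))
  rw [h1, Nat.cast_inj]
  refine ⟨fun h h5 => by have := h3 _ h5; omega, fun h => ?_⟩
  by_contra h5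
  exact h (Nat.le_induction h2 (fun _ _ h6 => h6.succ) _ (by omega : n ≤ cap G))

end Pool.Agent.P.MP_424b19_co
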