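import Pool.Agent.P.MP_424b19_co.ExGame

/-!
Mirrors and surviving classes.
-/

namespace Pool.Agent.P.MP_424b19_co

open Finset

variable {V : Type} [Fintype V] [DecidableEq V] {G : SimpleGraph V} [DecidableRel G.Adj]

lemma exists_inv (hG : G.IsEdgeConnected 2) {H : V → ℤ} (h : Surv G 1 H) :
    ∃ ι : V → V, (∀ v, ι (ι v) = v) ∧ ∀ v, Eqv G H (dl v + dl (ι v)) := by
  choose ι hι using h
  have h1 : ∀ v, Eqv G H (dl v + dl (ι v)) := fun v => Eqv.congr (hι v) (by abel)
  exact ⟨ι, fun v => eq_of_eqv hG (((h1 (ι v)).symm.trans (h1 v)).congr (by abel)), h1⟩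

lemma mirror_of (hG : G.IsEdgeConnected 2) {H : V → ℤ} {ι : V → V} (hι : ∀ v, ι (ι v) = v)
    (h : ∀ v, Eqv G H (dl v + dl (ι v))) : Mirror G ι := by
  have key : ∀ a b, G.Adj a b → b ≠ ι a → ∃ A : Finset V, a ∈ A ∧ ι a ∈ A ∧ b ∉ A ∧ ι b ∉ A ∧
      (bd G A).card = 2 ∧ bd G A = {(a, b), (ι a, ι b)} := fun a b hab hb =>
    cut_of_eqv hG hab (fun e => hb (by rw [e, hι])) (fun e => hab.ne (by rw [← hι a, e, hι]))
      ((h a).symm.trans (h b))
  refine ⟨hι, fun a b hab => ?_, fun a b hab hb => ?_⟩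
  · by_cases hb : b = ι a
    · rw [hb, hι, ← hb]
      exact hab.symm
    · obtain ⟨A, -, -, -, -, -, h1⟩ := key a b hab hb
      exact (mem_bd.1 (show (ι a, ι b) ∈ bd G A by simp [h1])).2.2
  · obtain ⟨A, h1, h2, h3, h4, -, h5⟩ := key a b hab hb
    refine ⟨A, h1, h2, h3, h4, fun x hx y hy hxy => ?_⟩
    have h6 : (x, y) ∈ bd G A := mem_bd.2 ⟨hx, hy, hxy⟩
    simpa [h5] using h6

lemma surv_unique (hG : G.IsEdgeConnected 2) {a : V} (ha : 3 ≤ G.degree a) {H H' : V → ℤ}
    (h : Surv G 1 H) (h' : Surv G 1 H') : Eqv G H H' := by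
  by_contra hne
  obtain ⟨ι, i1, i2⟩ := exists_inv hG h
  obtain ⟨κ, k1, k2⟩ := exists_inv hG h'
  have h1 : ∀ v, Eqv G (H' - H) (dl (κ (ι v)) - dl v) := fun v =>
    ((k2 (ι v)).sub (i2 v)).congr (by abel)
  have h2 : ∀ v, v ≠ κ (ι v) := fun v e => hne (((h1 v).symm).congr (by rw [← e]; abel))
  have key : ∀ b, G.Adj a b → ∃ A : Finset V, a ∈ A ∧ b ∉ A ∧ κ (ι a) ∉ A ∧ (bd G A).card = 2 := by
    intro b hab
    obtain ⟨A, a1, -, a2, a3, a4, -⟩ := cut_of_eqv hG hab (a' := κ (ι b)) (b' := κ (ι a)) (h2 a)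
      (fun e => hab.ne (by rw [← i1 a, ← k1 (ι a), ← e, k1, i1]))
      (((h1 a).symm.trans (h1 b)).symm.congr (by abel))
    exact ⟨A, a1, a2, a3, a4⟩
  obtain ⟨b₁, m1, b₂, m2, b₃, m3, n1, n2, n3⟩ := two_lt_card.1
    (show 2 < (G.neighborFinset a).card by rw [SimpleGraph.card_neighborFinset_eq_degree]; omega)
  rw [SimpleGraph.mem_neighborFinset] at m1 m2 m3
  obtain ⟨A₁, p1, q1, r1, s1⟩ := key b₁ m1
  obtain ⟨A₂, p2, q2, r2, s2⟩ := key b₂ m2
  obtain ⟨A₃, p3, q3, r3, s3⟩ := key b₃ m3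
  have e1 := bd_submod (G := G) A₁ A₂
  have e2 := bd_submod (G := G) (A₁ ∩ A₂) A₃
  have e3 := two_le_bd hG (A := A₁ ∪ A₂) (a := a) (b := κ (ι a)) (by simp [p1]) (by simp [r1, r2])
  have e4 := two_le_bd hG (A := A₁ ∩ A₂ ∪ A₃) (a := a) (b := κ (ι a)) (by simp [p3])
    (by simp [r1, r3])
  have e5 : 2 < (bd G (A₁ ∩ A₂ ∩ A₃)).card := two_lt_card.2
    ⟨(a, b₁), mem_bd.2 ⟨by simp [p1, p2, p3], by simp [q1], m1⟩,
      (a, b₂), mem_bd.2 ⟨by simp [p1, p2, p3], by simp [q2], m2⟩,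
      (a, b₃), mem_bd.2 ⟨by simp [p1, p2, p3], by simp [q3], m3⟩,
      by simp [n1], by simp [n2], by simp [n3]⟩
  omega

lemma Surv.exists_one [Nonempty V] : ∀ {k : ℕ} {D : V → ℤ}, Surv G (k + 1) D →
    ∃ H, Surv G 1 H := by
  intro k
  induction k with
  | zero => exact fun h => ⟨_, h⟩
  | succ k ih =>
    intro D h
    obtain ⟨w, hw⟩ := h (Classical.arbitrary V)
    exact ih hw

lemma Surv.eqv_smul (hG : G.IsEdgeConnected 2) {a : V} (ha : 3 ≤ G.degree a) {H : V → ℤ}
    (hH : Surv G 1 H) : ∀ {k : ℕ} {D : V → ℤ}, Surv G k D → Eqv G D ((k : ℤ) • H) := by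
  intro k
  induction k with
  | zero => exact fun h => Eqv.congr h (by simp)
  | succ k ih =>
    intro D h
    have h1 : Surv G 1 (D - (k : ℤ) • H) := fun v => by
      obtain ⟨w, hw⟩ := h v
      exact ⟨w, (ih hw).congr (by abel)⟩
    exact (surv_unique hG ha h1 hH).congr (by push_cast; rw [add_smul, one_smul]; abel)

variable {ι : V → V}

lemma Mirror.cut (hG : G.IsEdgeConnected 2) (hM : Mirror G ι) {a b : V} (hab : G.Adj a b)
    (hb : b ≠ ι a) : (a, b) ≠ (ι a, ι b) ∧ ∃ A, bd G A = {(a, b), (ι a, ι b)} := by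
  classical
  obtain ⟨A, h1, h2, h3, h4, h5⟩ := hM.2.2 a b hab hb
  have h6 : bd G (univ.filter (· ∈ A)) = {(a, b), (ι a, ι b)} := by
    ext ⟨x, y⟩
    simp only [mem_bd, mem_filter, mem_univ, true_and, mem_insert, mem_singleton, Prod.mk.injEq]
    refine ⟨fun h => h5 x h.1 y h.2.1 h.2.2, ?_⟩
    rintro (⟨rfl, rfl⟩ | ⟨rfl, rfl⟩)
    exacts [⟨h1, h3, hab⟩, ⟨h2, h4, hM.2.1 _ _ hab⟩]
  refine ⟨fun e => ?_, _, h6⟩
  have h7 := two_le_bd hG (A := univ.filter (· ∈ A)) (a := a) (b := b) (by simpa using h1)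
    (by simpa using h3)
  rw [h6, ← e] at h7
  simp at h7

lemma Mirror.pair (hG : G.IsEdgeConnected 2) (hM : Mirror G ι) (a b : V) :
    Eqv G (dl a + dl (ι a)) (dl b + dl (ι b)) := by
  obtain ⟨p⟩ := hG.preconnected two_ne_zero a b
  induction p with
  | nil => exact Eqv.of_eq rfl
  | @cons u v w h _ ih =>
    refine Eqv.trans ?_ ih
    by_cases hb : v = ι u
    · exact Eqv.of_eq (by rw [hb, hM.1, add_comm])
    · obtain ⟨h1, A, h2⟩ := hM.cut hG h hb
      exact ⟨_, (lap_ind A).trans (by rw [h2, sum_pair h1]; abel)⟩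

lemma Mirror.surv (hG : G.IsEdgeConnected 2) (hM : Mirror G ι) (a : V) (k : ℕ) :
    Surv G k ((k : ℤ) • (dl a + dl (ι a))) := by
  induction k with
  | zero => exact Eqv.of_eq (by simp)
  | succ k ih =>
    exact fun v => ⟨ι v, ih.congr ((hM.pair hG a v).congr
      (by push_cast; rw [add_smul, one_smul]; abel))⟩

omit [Fintype V] [DecidableEq V] [DecidableRel G.Adj] in
lemma Mirror.adj_iff (hM : Mirror G ι) {a b : V} : G.Adj (ι a) (ι b) ↔ G.Adj a b :=
  ⟨fun h => by simpa only [hM.1] using hM.2.1 _ _ h, hM.2.1 _ _⟩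

omit [DecidableEq V] in
lemma Mirror.lap_comp (hM : Mirror G ι) (x : V → ℤ) : lap G (x ∘ ι) = lap G x ∘ ι := by
  funext v
  simp only [lap, Function.comp]
  rw [← Equiv.sum_comp (Function.Involutive.toPerm ι hM.1)
    fun u => if G.Adj (ι v) u then x (ι v) - x u else 0]
  simp only [Function.Involutive.coe_toPerm, hM.adj_iff]

omit [Fintype V] [DecidableRel G.Adj] in
lemma Mirror.dl_comp (hM : Mirror G ι) (u : V) : dl u ∘ ι = dl (ι u) := by
  funext v
  have : ι v = u ↔ v = ι u := ⟨fun h => by rw [← h, hM.1], fun h => by rw [h, hM.1]⟩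
  simp only [Function.comp, dl, this]

omit [DecidableEq V] in
lemma deg_eq (v : V) : (G.degree v : ℤ) = ∑ u, if G.Adj v u then 1 else 0 := by
  simp only [sum_boole, ← SimpleGraph.card_neighborFinset_eq_degree,
    SimpleGraph.neighborFinset_eq_filter]

omit [DecidableEq V] in
lemma Mirror.room_comp (hM : Mirror G ι) : room G 0 ∘ ι = room G 0 := by
  funext v
  simp only [Function.comp, room, deg_eq, Pi.zero_apply]
  rw [← Equiv.sum_comp (Function.Involutive.toPerm ι hM.1)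
    fun u => if G.Adj (ι v) u then (1 : ℤ) else 0]
  simp only [Function.Involutive.coe_toPerm, hM.adj_iff]

lemma Mirror.even_sum (hG : G.IsEdgeConnected 2) (hM : Mirror G ι) {v : V} (hv : ι v = v)
    (f : V → ℤ) (hf : ∀ u, f (ι u) = f u) : Even (∑ u, if G.Adj v u then f u else 0) := by
  rw [← ZMod.intCast_eq_zero_iff_even, Int.cast_sum]
  have h1 : ∀ u, G.Adj v (ι u) ↔ G.Adj v u := fun u => by rw [← hM.adj_iff (a := v) (b := u), hv]
  refine sum_involution (fun u _ => ι u) (fun u _ => ?_) (fun u _ h e => ?_)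
    (fun _ _ => mem_univ _) fun u _ => hM.1 u
  · simp only [h1, hf]
    exact CharTwo.add_self_eq_zero _
  · have h2 : G.Adj v u := by
      by_contra h3
      simp [h3] at h
    exact (hM.cut hG h2 (by rw [hv]; exact h2.ne')).1 (by rw [hv, e])

lemma Mirror.even_of_eqv (hG : G.IsEdgeConnected 2) (hM : Mirror G ι) {D : V → ℤ} {k : ℤ} {v : V}
    (hD : D ∘ ι = D) (hv : ι v = v) (h : Eqv G D (k • (dl v + dl (ι v)))) : Even (D v) := by
  obtain ⟨x, hx⟩ := h
  have h1 : lap G (x ∘ ι - x) = dl v - dl v := by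
    rw [lap_sub, hM.lap_comp, hx, sub_self, sub_eq_zero]
    funext u
    have h2 := congrFun hD u
    have h3 := congrFun (hM.dl_comp v) u
    simp only [Function.comp, Pi.sub_apply, Pi.smul_apply, Pi.add_apply, hv] at h2 h3 ⊢
    rw [h2, h3]
  have h2 : ∀ u, x (ι u) = x u := fun u => by
    have := const_of_lap hG h1 u v
    simp only [Pi.sub_apply, Function.comp, hv] at this
    omega
  have h3 := hM.even_sum hG hv (fun u => x v - x u) fun u => by simp only [h2]
  have h4 := congrFun hx v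
  simp only [lap, hv, dl, Pi.sub_apply, Pi.smul_apply, Pi.add_apply, if_true, smul_eq_mul] at h4
  rw [h4] at h3
  obtain ⟨m, hm⟩ := h3
  exact ⟨m + k, by omega⟩

lemma Mirror.even_deg (hG : G.IsEdgeConnected 2) (hM : Mirror G ι) {v : V} (hv : ι v = v) :
    Even (G.degree v : ℤ) := deg_eq (G := G) v ▸ hM.even_sum hG hv (fun _ => 1) fun _ => rfl

lemma Mirror.eqv_of_symm (hG : G.IsEdgeConnected 2) (hM : Mirror G ι) {D : V → ℤ} (a : V)
    (hD : D ∘ ι = D) (h : ∀ v, ι v = v → Even (D v)) :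
    ∃ k : ℤ, Eqv G D (k • (dl a + dl (ι a))) := by
  obtain ⟨y, hy⟩ : ∃ y : V → ℤ, ∀ v, D v = y v + y (ι v) := by
    let e := Fintype.equivFin V
    refine ⟨fun v => if ι v = v then D v / 2 else if e v < e (ι v) then D v else 0, fun v => ?_⟩
    have h1 : D (ι v) = D v := congrFun hD v
    by_cases hv : ι v = v
    · obtain ⟨m, hm⟩ := h v hv
      simp only [hv, if_true]
      omega
    · have h2 : e (ι v) ≠ e v := fun h3 => hv (e.injective h3)
      simp only [hM.1, if_neg hv, if_neg (Ne.symm hv), h1]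
      split_ifs <;> omega
  have h1 : ∀ s : Finset V, Eqv G (∑ v ∈ s, y v • (dl v + dl (ι v)))
      ((∑ v ∈ s, y v) • (dl a + dl (ι a))) := by
    intro s
    induction s using Finset.induction_on with
    | empty => exact Eqv.of_eq (by simp)
    | insert v s hv ih =>
      rw [sum_insert hv, sum_insert hv, add_smul]
      exact ((hM.pair hG v a).smul _).add ih
  refine ⟨_, (Eqv.of_eq (funext fun w => ?_)).trans (h1 univ)⟩
  have h2 : ∀ v, (y v • (dl v + dl (ι v))) w =
      (if w = v then y v else 0) + if ι w = v then y v else 0 := fun v => by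
    have : w = ι v ↔ ι w = v := ⟨fun h => by rw [h, hM.1], fun h => by rw [← h, hM.1]⟩
    simp [dl, this, mul_add]
  simp only [Finset.sum_apply, h2, sum_add_distrib, sum_ite_eq, mem_univ, if_true, hy w]

theorem extremal (hG : G.IsEdgeConnected 2) (hd : ∃ v, 3 ≤ G.degree v) (b : Bool) :
    value G b = ((2 * G.edgeFinset.card + 1 - Fintype.card V : ℕ) : ℕ∞) ↔
      ∃ ι : V → V, Mirror G ι ∧ (univ.filter fun v => ι v = v).card = if b then 1 else 0 := by
  obtain ⟨a, ha⟩ := hd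
  have : Nonempty V := ⟨a⟩
  obtain ⟨a', ha'⟩ := (G.degree_pos_iff_exists_adj a).1 (by omega)
  have : Nontrivial V := ⟨a, a', ha'.ne⟩
  have hdeg : ∀ v, 2 ≤ G.degree v := fun v => hG.le_degree
  have hst : ∀ v, (0 : V → ℕ) v < G.degree v := fun v => by
    have := hdeg v
    simp only [Pi.zero_apply]
    omega
  have hcap : cap G + Fintype.card V = 2 * G.edgeFinset.card := by
    rw [← G.sum_degrees_eq_twice_card_edges, cap, ← card_univ, card_eq_sum_ones, ← sum_add_distrib]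
    exact sum_congr rfl fun v _ => by have := hdeg v; omega
  have hcap2 : 2 ≤ cap G := le_trans (by omega) (single_le_sum
    (f := fun v => G.degree v - 1) (fun _ _ => Nat.zero_le _) (mem_univ a))
  have hroom : ∑ v, room G 0 v = cap G := by
    rw [cap, Nat.cast_sum]
    exact sum_congr rfl fun v _ => by
      have := hdeg v
      simp only [room, Pi.zero_apply]
      omega
  have hlast := min_last G ha' (SimpleGraph.isEdgeConnected_two.1 hG _ a a') (cap G - 1) b 0
    (by simp; omega)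
  rw [show cap G - 1 + 1 = cap G by omega] at hlast
  have hodd : ∀ {ι : V → V}, Mirror G ι → ∀ v, ι v = v → ¬ Even (room G 0 v) := fun hM v hv h => by
    obtain ⟨m, hm⟩ := hM.even_deg hG hv
    obtain ⟨m', hm'⟩ := h
    simp only [room, Pi.zero_apply] at hm'
    omega
  have hex : ∀ {k : ℕ} {D : V → ℤ}, k ≠ 0 → Surv G k D →
      ∃ ι, Mirror G ι ∧ ∀ v, Eqv G D ((k : ℤ) • (dl v + dl (ι v))) := by
    intro k D hk h
    obtain ⟨j, rfl⟩ := Nat.exists_eq_succ_of_ne_zero hk
    obtain ⟨H, hH⟩ := h.exists_one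
    obtain ⟨ι, h1, h2⟩ := exists_inv hG hH
    exact ⟨ι, mirror_of hG h1 h2, fun v => (Surv.eqv_smul hG ha hH h).trans ((h2 v).smul _)⟩
  have hdg : ∀ (k : ℤ) (u w : V), ∑ v, (k • (dl u + dl w)) v = 2 * k := fun k u w => by
    simp only [Pi.smul_apply, Pi.add_apply, smul_eq_mul, ← mul_sum, sum_add_distrib, sum_dl,
      mem_univ, if_true]
    ring
  rw [show 2 * G.edgeFinset.card + 1 - Fintype.card V = cap G + 1 by omega, value_eq_iff]
  cases b with
  | false =>
    simp only [Bool.false_eq_true, if_false, card_eq_zero, filter_eq_empty_iff, mem_univ,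
      true_imp_iff]
    refine ⟨fun h => ?_, ?_⟩
    · obtain ⟨k, hk⟩ : ∃ k, cap G = 2 * k := by
        refine ⟨cap G / 2, ?_⟩
        by_contra hc
        exact h (hlast (by simp [Nat.even_iff]; omega))
      rw [hk] at h
      obtain ⟨ι, hM, h1⟩ := hex (by omega) (((surv_iff k).1 0 hst (by simp [hk])).1 h)
      exact ⟨ι, hM, fun v hv => hodd hM v hv (hM.even_of_eqv hG hM.room_comp hv (h1 v))⟩
    · rintro ⟨ι, hM, h⟩
      obtain ⟨k, hk⟩ := hM.eqv_of_symm hG a hM.room_comp fun v hv => (h hv).elim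
      have h1 := hk.deg
      rw [hroom, hdg] at h1
      obtain ⟨j, rfl⟩ := Int.eq_ofNat_of_zero_le (show 0 ≤ k by omega)
      have h2 : cap G = 2 * j := by omega
      rw [h2]
      exact ((surv_iff j).1 0 hst (by simp [h2])).2 ((hM.surv hG a j).congr hk)
  | true =>
    simp only [if_true, card_eq_one]
    refine ⟨fun h => ?_, ?_⟩
    · obtain ⟨k, hk⟩ : ∃ k, cap G = 2 * k + 1 := by
        refine ⟨cap G / 2, ?_⟩
        by_contra hc
        exact h (hlast (by simp [Nat.odd_iff]; omega))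
      rw [hk] at h
      obtain ⟨u, hu⟩ := ((surv_iff k).2 0 (by simp [hk])).1 h
      obtain ⟨ι, hM, h1⟩ := hex (by omega) hu
      have h2 : ι u = u := by
        obtain ⟨x, hx⟩ := h1 u
        refine eq_of_eqv hG ⟨x - x ∘ ι, funext fun w => ?_⟩
        have e1 := congrFun hM.room_comp w
        have e2 := congrFun (hM.dl_comp u) w
        have e3 := congrFun (hM.dl_comp (ι u)) w
        rw [lap_sub, hM.lap_comp, hx]
        simp only [Function.comp, Pi.sub_apply, Pi.smul_apply, Pi.add_apply, hM.1,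
          smul_eq_mul] at e1 e2 e3 ⊢
        rw [e1, e2, e3]
        ring
      have h3 : (room G 0 - dl u) ∘ ι = room G 0 - dl u := by
        rw [Pi.sub_comp, hM.room_comp, hM.dl_comp, h2]
      refine ⟨ι, hM, u, eq_singleton_iff_unique_mem.2 ⟨by simp [h2], fun v hv => ?_⟩⟩
      by_contra hne
      have h4 := hM.even_of_eqv hG h3 (mem_filter.1 hv).2 (h1 v)
      simp only [Pi.sub_apply, dl, if_neg hne, sub_zero] at h4
      exact hodd hM v (mem_filter.1 hv).2 h4
    · rintro ⟨ι, hM, u, h⟩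
      have h0 : ∀ v, ι v = v ↔ v = u := fun v => by simpa using Finset.ext_iff.1 h v
      have h2 := (h0 u).2 rfl
      have h3 : (room G 0 - dl u) ∘ ι = room G 0 - dl u := by
        rw [Pi.sub_comp, hM.room_comp, hM.dl_comp, h2]
      obtain ⟨k, hk⟩ := hM.eqv_of_symm hG a h3 fun v hv => by
        obtain rfl := (h0 v).1 hv
        simp only [Pi.sub_apply, dl, if_true]
        exact Int.even_sub_one.2 (hodd hM v hv)
      have h1 := hk.deg
      simp only [Pi.sub_apply, sum_sub_distrib, sum_dl, mem_univ, if_true] at h1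
      rw [hroom, hdg] at h1
      obtain ⟨j, rfl⟩ := Int.eq_ofNat_of_zero_le (show 0 ≤ k by omega)
      have h4 : cap G = 2 * j + 1 := by omega
      rw [h4]
      exact ((surv_iff j).2 0 (by simp [h4])).2 ⟨u, (hM.surv hG a j).congr hk⟩

end Pool.Agent.P.MP_424b19_co
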